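import Pool.Agent.helper42.CQ.SpecC

/-!
# Row AL1: weights at an earlier time
-/

set_option autoImplicit false

namespace Pool.Agent.helper42.CQ

open Finset Pool.Agent.helper24.CG

theorem AL1_zero {N : ℕ} (b m : ℕ) (K : Finset (Fin N)) (H : List (ES N)) (e : Finset (Fin N))
    (h : ∀ E ∈ H, e ∉ E) : wt b m K H e = 0 := by
  unfold wt
  apply List.sum_eq_zero
  intro x hx
  obtain ⟨E, hE, rfl⟩ := List.mem_map.mp hx
  rw [if_neg (h E hE)]

theorem AL1 (hWTA : WTA_stmt) : AL1_stmt := by
  intro N m b l H₂ H₁ K hm hb hH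
  obtain ⟨_, _, _, _, h5⟩ := hWTA N m b K (H₂ ++ H₁) hm hb hH
  have key : ∀ e, (∃ E ∈ H₁, e ∈ E) → wt b m K H₁ e = wt b m K (H₂ ++ H₁) e :=
    fun e he => h5 H₂ H₁ e rfl he
  have key0 : ∀ e, (¬ ∃ E ∈ H₁, e ∈ E) → wt b m K H₁ e = 0 := fun e he =>
    AL1_zero b m K H₁ e (fun E hE heE => he ⟨E, hE, heE⟩)
  constructor
  · intro Y hY
    unfold gf
    congr 1
    have h1 : ∀ e ∈ ed Y, e ∉ Y.powersetCard 2 ∩ (ed K).filter (fun e => ∃ E ∈ H₁, e ∈ E) →
        wt b m K H₁ e = 0 := by
      intro e he hne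
      apply key0
      intro hc
      apply hne
      rw [mem_inter, mem_filter]
      refine ⟨he, ?_, hc⟩
      exact powersetCard_mono hY he
    have h2 : Y.powersetCard 2 ∩ (ed K).filter (fun e => ∃ E ∈ H₁, e ∈ E) ⊆ ed Y :=
      fun e he => (mem_inter.mp he).1
    rw [← sum_subset h2 h1]
    refine sum_congr rfl fun e he => ?_
    exact key e (mem_filter.mp (mem_inter.mp he).2).2
  · intro G hG v hv
    unfold wv
    refine sum_congr rfl fun u hu => ?_
    have hu' := mem_erase.mp hu
    have hed : ({v, u} : Finset (Fin N)) ∈ ed K := by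
      rw [ed, mem_powersetCard]
      constructor
      · intro x hx
        rcases mem_insert.mp hx with rfl | hx
        · exact hG hv
        · rw [mem_singleton.mp hx]
          exact hG hu'.2
      · exact card_pair (fun h => hu'.1 h.symm)
    split_ifs with h
    · exact key _ (mem_filter.mp h).2
    · exact key0 _ (fun hc => h (mem_filter.mpr ⟨hed, hc⟩))

end Pool.Agent.helper42.CQ
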