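import Pool.Agent.helper42.CQ.SpecC

/-!
# Row CL1: counting colourings
-/

set_option autoImplicit false

namespace Pool.Agent.helper42.CQ

open Finset Pool.Agent.helper24.CG

theorem CL1_step (V : Type) [Fintype V] [DecidableEq V] (D : Finset (Finset V)) (d : Finset V)
    (k : ℕ) (a : Fin k) (hd : d.card ≤ 2) (hdis : ∀ d' ∈ D, Disjoint d d') :
    ((univ : Finset (V → Fin k)).filter fun f => ∀ d ∈ D, ∃ x ∈ d, f x ≠ a).card ≤
      (((univ : Finset (V → Fin k)).filter fun f => ∀ d ∈ D, ∃ x ∈ d, f x ≠ a).filter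
        fun f => ∀ x ∈ d, f x = a).card * k ^ 2 := by
  have hk : 1 ≤ k := by
    have := a.2
    omega
  have h1 : ((univ : Finset (V → Fin k)).filter fun f => ∀ d ∈ D, ∃ x ∈ d, f x ≠ a).card ≤
      ((((univ : Finset (V → Fin k)).filter fun f => ∀ d ∈ D, ∃ x ∈ d, f x ≠ a).filter
        fun f => ∀ x ∈ d, f x = a) ×ˢ (univ : Finset (d → Fin k))).card := by
    refine card_le_card_of_injOn
      (fun f => ((fun x => if x ∈ d then a else f x), fun x : d => f x)) ?_ ?_
    · intro f hf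
      have hf' := (mem_filter.mp (mem_coe.mp hf)).2
      rw [mem_coe, mem_product]
      refine ⟨?_, mem_univ _⟩
      rw [mem_filter, mem_filter]
      refine ⟨⟨mem_univ _, ?_⟩, ?_⟩
      · intro d' hd'
        obtain ⟨x, hx, hxa⟩ := hf' d' hd'
        refine ⟨x, hx, ?_⟩
        have hxd : x ∉ d := fun h => (disjoint_left.mp (hdis d' hd')) h hx
        simp only [if_neg hxd]
        exact hxa
      · intro x hx
        simp only [if_pos hx]
    · intro f _ g _ hfg
      have e1 := congrArg Prod.fst hfg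
      have e2 := congrArg Prod.snd hfg
      simp only at e1 e2
      funext x
      by_cases hx : x ∈ d
      · exact congrFun e2 ⟨x, hx⟩
      · have := congrFun e1 x
        simpa only [if_neg hx] using this
  refine h1.trans ?_
  rw [card_product]
  refine Nat.mul_le_mul_left _ ?_
  rw [card_univ, Fintype.card_fun, Fintype.card_fin, Fintype.card_coe]
  exact Nat.pow_le_pow_right hk hd

theorem CL1 : CL1_stmt := by
  intro V _ _ D k a
  have hk : 1 ≤ k := by
    have := a.2
    omega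
  have hk0 : (0 : ℝ) < (k : ℝ) ^ 2 := by
    have : (0 : ℝ) < k := by exact_mod_cast hk
    positivity
  have hk1 : (0 : ℝ) ≤ 1 - 1 / (k : ℝ) ^ 2 := by
    have h2 : (1 : ℝ) ≤ (k : ℝ) ^ 2 := by
      have : (1 : ℝ) ≤ k := by exact_mod_cast hk
      nlinarith
    have h3 : 1 / (k : ℝ) ^ 2 ≤ 1 := by
      rw [div_le_one hk0]
      exact h2
    linarith
  induction D using Finset.induction_on with
  | empty =>
    intro _ _
    rw [card_empty, pow_zero, mul_one]
    have h1 := card_filter_le (univ : Finset (V → Fin k))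
      (fun f => ∀ d ∈ (∅ : Finset (Finset V)), ∃ x ∈ d, f x ≠ a)
    rw [card_univ, Fintype.card_fun, Fintype.card_fin] at h1
    exact_mod_cast h1
  | insert d D hdD ih =>
    intro hc hdis
    have ih' := ih (fun d' hd' => hc d' (mem_insert_of_mem hd'))
      (fun d₁ h₁ d₂ h₂ hne => hdis d₁ (mem_insert_of_mem h₁) d₂ (mem_insert_of_mem h₂) hne)
    have hdd : ∀ d' ∈ D, Disjoint d d' := fun d' hd' =>
      hdis d (mem_insert_self d D) d' (mem_insert_of_mem hd') (fun h => hdD (h ▸ hd'))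
    have h1 := CL1_step V D d k a (hc d (mem_insert_self d D)).2 hdd
    have h2 := card_filter_add_card_filter_not
      (s := (univ : Finset (V → Fin k)).filter fun f => ∀ d ∈ D, ∃ x ∈ d, f x ≠ a)
      (fun f => ∀ x ∈ d, f x = a)
    have h3 : (univ : Finset (V → Fin k)).filter (fun f => ∀ d' ∈ insert d D, ∃ x ∈ d', f x ≠ a)
        = ((univ : Finset (V → Fin k)).filter fun f => ∀ d ∈ D, ∃ x ∈ d, f x ≠ a).filter
          fun f => ¬ ∀ x ∈ d, f x = a := by
      ext f
      simp only [mem_filter, mem_univ, true_and, mem_insert, forall_eq_or_imp]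
      constructor
      · rintro ⟨⟨x, hx, hxa⟩, h⟩
        exact ⟨h, fun h' => hxa (h' x hx)⟩
      · rintro ⟨h, h'⟩
        push Not at h'
        exact ⟨h', h⟩
    rw [h3, card_insert_of_notMem hdD, pow_succ]
    generalize hX : (((univ : Finset (V → Fin k)).filter fun f => ∀ d ∈ D, ∃ x ∈ d, f x ≠ a).filter
      fun f => ¬ ∀ x ∈ d, f x = a).card = X at h2 ⊢
    generalize hY : (((univ : Finset (V → Fin k)).filter fun f => ∀ d ∈ D, ∃ x ∈ d, f x ≠ a).filter
      fun f => ∀ x ∈ d, f x = a).card = Y at h1 h2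
    generalize hZ : ((univ : Finset (V → Fin k)).filter fun f => ∀ d ∈ D, ∃ x ∈ d, f x ≠ a).card
      = W at h1 h2 ih'
    have h1' : (W : ℝ) ≤ Y * (k : ℝ) ^ 2 := by exact_mod_cast h1
    have h2' : (Y : ℝ) + X = W := by exact_mod_cast h2
    have h4 : (W : ℝ) / (k : ℝ) ^ 2 ≤ Y := by
      rw [div_le_iff₀ hk0]
      exact h1'
    have h5 : (X : ℝ) ≤ W * (1 - 1 / (k : ℝ) ^ 2) := by
      have : (W : ℝ) * (1 - 1 / (k : ℝ) ^ 2) = W - W / (k : ℝ) ^ 2 := by ring
      rw [this]
      linarith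
    calc (X : ℝ) ≤ W * (1 - 1 / (k : ℝ) ^ 2) := h5
      _ ≤ ((k : ℝ) ^ (Fintype.card V) * (1 - 1 / (k : ℝ) ^ 2) ^ D.card) *
          (1 - 1 / (k : ℝ) ^ 2) := mul_le_mul_of_nonneg_right ih' hk1
      _ = _ := by ring

end Pool.Agent.helper42.CQ
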