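import Pool.Agent.helper42.CQ.SpecC

/-!
# Row FIN: the theorem
-/

set_option autoImplicit false

namespace Pool.Agent.helper42.CQ

open Finset Pool.Agent.helper24.CG

theorem FIN_comb (hQQL : QQL_stmt) (m b : ℕ) (hb : 1 ≤ b) (hbm : b < m)
    (h : ∀ ε : ℝ, 0 < ε → ∃ N₀ : ℕ, ∀ N ≥ N₀,
      (A N m b : ℝ) ≤ (2 + ε) * (Real.log N / Real.log (1 + (b : ℝ) / (m : ℝ)))) :
    ∀ ε : ℝ, 0 < ε → ∃ N₀ : ℕ, ∀ N ≥ N₀,
      (A N m b : ℝ) ≤ (1 + ε) * QQ N m b ∧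
      (A N m b : ℝ) ≤ (2 + ε) * (Real.log N / Real.log (1 + (b : ℝ) / (m : ℝ))) := by
  intro ε hε
  obtain ⟨ε', hε', N₁, h1⟩ := hQQL m b ε hb hbm hε
  obtain ⟨N₂, h2⟩ := h ε' hε'
  obtain ⟨N₃, h3⟩ := h ε hε
  refine ⟨max N₁ (max N₂ N₃), fun N hN => ?_⟩
  have a1 : N₁ ≤ N := le_trans (le_max_left _ _) hN
  have a2 : N₂ ≤ N := le_trans (le_trans (le_max_left _ _) (le_max_right _ _)) hN
  have a3 : N₃ ≤ N := le_trans (le_trans (le_max_right _ _) (le_max_right _ _)) hN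
  exact ⟨(h2 N a2).trans (h1 N a1), h3 N a3⟩

theorem FIN (hMNA : MNA_stmt) (hMNG : MNG_stmt) (hNU1 : NU1_stmt) (hNU2 : NU2_stmt)
    (hQQL : QQL_stmt) : FIN_stmt := by
  constructor
  · have h := FIN_comb hQQL 2 1 le_rfl (by norm_num) ?_
    · intro ε hε
      obtain ⟨N₀, h0⟩ := h ε hε
      refine ⟨N₀, fun N hN => ?_⟩
      obtain ⟨h1, h2⟩ := h0 N hN
      refine ⟨h1, ?_⟩
      have e : (1 : ℝ) + ((1 : ℕ) : ℝ) / ((2 : ℕ) : ℝ) = 3 / 2 := by norm_num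
      rwa [e] at h2
    · intro ε hε
      obtain ⟨N₀, h0⟩ := hMNA ε hε
      refine ⟨N₀, fun N hN => ?_⟩
      have e : (1 : ℝ) + ((1 : ℕ) : ℝ) / ((2 : ℕ) : ℝ) = 3 / 2 := by norm_num
      rw [e]
      exact h0 N hN
  · rintro m b (⟨rfl, hm⟩ | ⟨rfl, hm⟩)
    · refine FIN_comb hQQL m 1 le_rfl (by omega) ?_
      obtain ⟨h1, h2, h3, h4, h5, h6, h7⟩ := hNU1 m hm
      refine hMNG m 1 14 (13 / 500) (13 / 500) (by omega) le_rfl (by norm_num) (by norm_num)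
        le_rfl h1 h2 h3 ?_ h5 ?_ h7
      · rw [Nat.cast_ofNat]
        exact h4
      · rw [Nat.cast_one, Nat.cast_ofNat]
        exact h6
    · refine FIN_comb hQQL m 2 (by norm_num) (by omega) ?_
      obtain ⟨h1, h2, h3, h4, h5, h6, h7⟩ := hNU2 m hm
      refine hMNG m 2 200 (1 / 1000) (1 / 1000) (by omega) (by norm_num) (by norm_num)
        (by norm_num) le_rfl h1 h2 h3 ?_ h5 ?_ h7
      · rw [Nat.cast_ofNat]
        exact h4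
      · rw [Nat.cast_ofNat, Nat.cast_ofNat]
        exact h6

end Pool.Agent.helper42.CQ
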